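import Mathlib

/-! Semantic read-once branching programs: mean logarithms of class sizes. -/

set_option autoImplicit false

namespace Pool.Agent.SRO

open Finset

section Basic

variable {Ω α β γ : Type*} [Fintype Ω]

open Classical in
/-- the size of the class of `x` under `f` -/
noncomputable def nf (f : Ω → β) (x : Ω) : ℕ := (univ.filter fun y => f y = f x).card

lemma nf_eq [DecidableEq β] (f : Ω → β) (x : Ω) :
    nf f x = (univ.filter fun y => f y = f x).card := by
  unfold nf
  congr!

lemma nf_pos (f : Ω → β) (x : Ω) : 0 < nf f x := by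
  classical
  unfold nf
  exact Finset.card_pos.2 ⟨x, Finset.mem_filter.2 ⟨Finset.mem_univ _, rfl⟩⟩

lemma nf_congr {f : Ω → β} {x y : Ω} (h : f x = f y) : nf f x = nf f y := by
  unfold nf
  rw [h]

lemma nf_le (f : Ω → β) (x : Ω) : nf f x ≤ Fintype.card Ω := by
  classical
  unfold nf
  exact Finset.card_le_univ _

lemma nf_mono {f : Ω → β} {g : Ω → γ} {x : Ω} (h : ∀ y, g y = g x → f y = f x) :
    nf g x ≤ nf f x := by
  classical
  unfold nf
  apply Finset.card_le_card
  intro y hy
  rw [Finset.mem_filter] at hy ⊢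
  exact ⟨hy.1, h y hy.2⟩

/-- the mean logarithm of the size of the class: the conditional entropy of `x` given `f x` -/
noncomputable def L (f : Ω → β) : ℝ := (∑ x, Real.log (nf f x)) / Fintype.card Ω

lemma L_nonneg (f : Ω → β) : 0 ≤ L f := by
  unfold L
  apply div_nonneg _ (Nat.cast_nonneg _)
  refine Finset.sum_nonneg fun x _ => Real.log_nonneg ?_
  exact_mod_cast nf_pos f x

lemma L_mono {f : Ω → β} {g : Ω → γ} (h : ∀ x y, g y = g x → f y = f x) : L g ≤ L f := by
  unfold L
  apply div_le_div_of_nonneg_right _ (Nat.cast_nonneg _)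
  refine Finset.sum_le_sum fun x _ => Real.log_le_log ?_ ?_
  · exact_mod_cast nf_pos g x
  · exact_mod_cast nf_mono (h x)

/-- sums over the classes -/
lemma sum_div_nf [DecidableEq β] (f : Ω → β) (G : β → ℝ) :
    ∑ x, G (f x) / nf f x = ∑ b ∈ univ.image f, G b := by
  rw [← Finset.sum_fiberwise_of_maps_to (g := f) (t := univ.image f)
    (fun x _ => Finset.mem_image_of_mem f (Finset.mem_univ x))]
  refine Finset.sum_congr rfl fun b hb => ?_
  obtain ⟨x₀, -, hx₀⟩ := Finset.mem_image.1 hb
  have h1 : ∀ x ∈ univ.filter (fun x => f x = b), G (f x) / nf f x = G b / nf f x₀ := by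
    intro x hx
    have hx' := (Finset.mem_filter.1 hx).2
    rw [hx', nf_congr (show f x = f x₀ by rw [hx', hx₀])]
  rw [Finset.sum_congr rfl h1, Finset.sum_const, nsmul_eq_mul]
  have h2 : (univ.filter fun x => f x = b).card = nf f x₀ := by
    rw [nf_eq, hx₀]
  rw [h2]
  have h3 : (nf f x₀ : ℝ) ≠ 0 := by exact_mod_cast (nf_pos f x₀).ne'
  field_simp

/-- the classes of `g` inside a class of `f` : mean logarithms, if there are at most `R` of them -/
lemma L_le_refine [Nonempty Ω] [DecidableEq β] {f : Ω → β} {g : Ω → γ}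
    {R : ℝ} (hR : 0 < R) (h : ∀ x, ∑ y ∈ univ.filter (fun y => f y = f x), (1 : ℝ) / nf g y ≤ R) :
    L f ≤ L g + Real.log R := by
  have hc : (0 : ℝ) < Fintype.card Ω := by exact_mod_cast Fintype.card_pos
  have hR0 : R ≠ 0 := hR.ne'
  -- Gibbs
  have h1 : ∀ x, Real.log (nf f x) - Real.log (nf g x) - Real.log R ≤
      (nf f x : ℝ) / (nf g x * R) - 1 := by
    intro x
    have hf : (0 : ℝ) < nf f x := by exact_mod_cast nf_pos f x
    have hg : (0 : ℝ) < nf g x := by exact_mod_cast nf_pos g x
    have h2 := Real.log_le_sub_one_of_pos (show (0 : ℝ) < nf f x / (nf g x * R) by positivity)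
    rw [Real.log_div hf.ne' (by positivity), Real.log_mul hg.ne' hR0] at h2
    linarith
  have h2 : ∑ x, (nf f x : ℝ) / (nf g x * R) ≤ Fintype.card Ω := by
    have e1 : ∀ x, (nf f x : ℝ) / (nf g x * R) =
        ∑ y, (if f y = f x then (1 : ℝ) / (nf g x * R) else 0) := by
      intro x
      rw [← Finset.sum_filter, Finset.sum_const, nsmul_eq_mul, nf_eq f x, mul_one_div]
    simp_rw [e1]
    rw [Finset.sum_comm]
    have e2 : ∀ y, ∑ x, (if f y = f x then (1 : ℝ) / (nf g x * R) else 0) ≤ 1 := by
      intro y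
      have e3 : ∑ x, (if f y = f x then (1 : ℝ) / (nf g x * R) else 0) =
          (∑ x, (if f x = f y then (1 : ℝ) / nf g x else 0)) / R := by
        rw [Finset.sum_div]
        refine Finset.sum_congr rfl fun x _ => ?_
        by_cases hxy : f x = f y
        · rw [if_pos hxy, if_pos hxy.symm, div_div]
        · rw [if_neg hxy, if_neg (fun h => hxy h.symm), zero_div]
      rw [e3, div_le_one hR, ← Finset.sum_filter]
      exact h y
    refine (Finset.sum_le_sum fun y _ => e2 y).trans ?_
    simp
  have h3 : ∑ x, (Real.log (nf f x) - Real.log (nf g x) - Real.log R) ≤ 0 := by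
    refine (Finset.sum_le_sum fun x _ => h1 x).trans ?_
    rw [Finset.sum_sub_distrib]
    simp only [Finset.sum_const, Finset.card_univ, nsmul_eq_mul, mul_one]
    linarith
  rw [Finset.sum_sub_distrib, Finset.sum_sub_distrib] at h3
  simp only [Finset.sum_const, Finset.card_univ, nsmul_eq_mul] at h3
  unfold L
  rw [div_add' _ _ _ hc.ne']
  apply div_le_div_of_nonneg_right _ hc.le
  linarith

end Basic

end Pool.Agent.SRO
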