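import Pool.Agent.SRO.Ent

/-! Semantic read-once branching programs: resampling. -/

set_option autoImplicit false

namespace Pool.Agent.SRO

open Finset

section Gibbs

variable {Ω α β γ : Type*} [Fintype Ω]

/-- the classes of a pair of functions -/
lemma sum_pair_le [DecidableEq α] [DecidableEq γ] (f : Ω → α) (g : Ω → γ) (a : α) (G : γ → ℝ) (hG : ∀ w, 0 ≤ G w) :
    ∑ y ∈ univ.filter (fun y => f y = a), G (g y) / nf (fun y => (f y, g y)) y ≤
      ∑ w ∈ univ.image g, G w := by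
  have h1 := sum_div_nf (fun y => (f y, g y)) (fun b : α × γ => if b.1 = a then G b.2 else 0)
  have h2 : ∑ y ∈ univ.filter (fun y => f y = a), G (g y) / nf (fun y => (f y, g y)) y =
      ∑ x, (fun b : α × γ => if b.1 = a then G b.2 else 0) (f x, g x) /
        nf (fun y => (f y, g y)) x := by
    rw [Finset.sum_filter]
    refine Finset.sum_congr rfl fun x _ => ?_
    simp only
    split_ifs
    · rfl
    · rw [zero_div]
  rw [h2, h1, ← Finset.sum_filter]
  refine (Finset.sum_le_sum_of_subset_of_nonneg (t := (univ.image g).image fun w => (a, w)) ?_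
    (fun b _ _ => hG _)).trans ?_
  · intro b hb
    rw [Finset.mem_filter, Finset.mem_image] at hb
    obtain ⟨⟨y, _, rfl⟩, hy⟩ := hb
    simp only at hy
    rw [Finset.mem_image]
    exact ⟨g y, Finset.mem_image_of_mem g (Finset.mem_univ y), by rw [← hy]⟩
  rw [Finset.sum_image]
  intro w _ w' _ h
  exact (Prod.mk.inj h).2

/-- **Resampling, one function.** `x` is uniform and `y` is uniform in its class under `V₁`. -/
theorem gibbs [Nonempty Ω] [Fintype β] [DecidableEq α] [DecidableEq β] [DecidableEq γ] (V₁ : Ω → α) (V₂ : Ω → γ) (S : Ω → β) (Q : γ → β → ℝ)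
    (hQ0 : ∀ w s, 0 < Q w s) (hQ1 : ∀ w, ∑ s, Q w s ≤ 1) :
    L V₁ + L V₂ - L S - L (fun x => (V₁ x, V₂ x)) +
      (∑ x, (∑ y ∈ univ.filter (fun y => V₁ y = V₁ x), Real.log (Q (V₂ y) (S x))) / nf V₁ x) /
        Fintype.card Ω ≤ 0 := by
  have hc : (0 : ℝ) < Fintype.card Ω := by exact_mod_cast Fintype.card_pos
  obtain ⟨P, hP⟩ : ∃ P : Ω → α × γ, P = fun x => (V₁ x, V₂ x) := ⟨_, rfl⟩
  rw [← hP]
  have n1 : ∀ x, (0 : ℝ) < nf V₁ x := fun x => by exact_mod_cast nf_pos V₁ x
  have n2 : ∀ x, (0 : ℝ) < nf V₂ x := fun x => by exact_mod_cast nf_pos V₂ x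
  have nS : ∀ x, (0 : ℝ) < nf S x := fun x => by exact_mod_cast nf_pos S x
  have nP : ∀ x, (0 : ℝ) < nf P x := fun x => by exact_mod_cast nf_pos P x
  -- the ratio
  obtain ⟨r, hr⟩ : ∃ r : Ω → Ω → ℝ, r = fun x y =>
      (nf V₂ y * nf V₁ x * Q (V₂ y) (S x)) / (nf S x * nf P y) := ⟨_, rfl⟩
  have hr0 : ∀ x y, 0 < r x y := by
    intro x y
    rw [hr]
    exact div_pos (mul_pos (mul_pos (n2 y) (n1 x)) (hQ0 _ _)) (mul_pos (nS x) (nP y))
  -- the mean of the ratio
  have h1 : ∑ x, (∑ y ∈ univ.filter (fun y => V₁ y = V₁ x), r x y) / nf V₁ x ≤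
      Fintype.card Ω := by
    have e1 : ∀ x, (∑ y ∈ univ.filter (fun y => V₁ y = V₁ x), r x y) / nf V₁ x ≤
        ∑ y, Q (V₂ y) (S x) / nf S x := by
      intro x
      have e2 : ∑ y ∈ univ.filter (fun y => V₁ y = V₁ x), r x y = (nf V₁ x / nf S x) *
          ∑ y ∈ univ.filter (fun y => V₁ y = V₁ x),
            (fun w => (∑ z ∈ univ.filter (fun z => V₂ z = w), Q w (S x))) (V₂ y) / nf P y := by
        rw [Finset.mul_sum]
        refine Finset.sum_congr rfl fun y _ => ?_
        rw [hr]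
        simp only [Finset.sum_const, nsmul_eq_mul]
        have e3 : ((univ.filter fun z => V₂ z = V₂ y).card : ℝ) = nf V₂ y := by rw [nf_eq]
        rw [e3]
        have := (nS x).ne'
        have := (nP y).ne'
        field_simp
      have e4 := sum_pair_le V₁ V₂ (V₁ x)
        (fun w => (∑ z ∈ univ.filter (fun z => V₂ z = w), Q w (S x)))
        (fun w => Finset.sum_nonneg fun z _ => (hQ0 _ _).le)
      have e5 : ∑ w ∈ univ.image V₂, (∑ z ∈ univ.filter (fun z => V₂ z = w), Q w (S x)) =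
          ∑ z, Q (V₂ z) (S x) := by
        rw [← Finset.sum_fiberwise_of_maps_to (g := V₂) (t := univ.image V₂)
          (fun x _ => Finset.mem_image_of_mem V₂ (Finset.mem_univ x))]
        refine Finset.sum_congr rfl fun w _ => Finset.sum_congr rfl fun z hz => ?_
        rw [(Finset.mem_filter.1 hz).2]
      rw [e2, ← hP] at *
      rw [e5] at e4
      have e6 := mul_le_mul_of_nonneg_left e4 (div_pos (n1 x) (nS x)).le
      calc _ ≤ ((nf V₁ x / nf S x) * ∑ z, Q (V₂ z) (S x)) / nf V₁ x :=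
            div_le_div_of_nonneg_right e6 (n1 x).le
        _ = ∑ y, Q (V₂ y) (S x) / nf S x := by
            rw [← Finset.sum_div]
            have := (n1 x).ne'
            field_simp
    refine (Finset.sum_le_sum fun x _ => e1 x).trans ?_
    rw [Finset.sum_comm]
    have e7 : ∀ y, ∑ x, Q (V₂ y) (S x) / nf S x ≤ 1 := by
      intro y
      rw [sum_div_nf S (Q (V₂ y))]
      refine le_trans (Finset.sum_le_sum_of_subset_of_nonneg (Finset.subset_univ _)
        (fun s _ _ => (hQ0 _ _).le)) (hQ1 _)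
    refine (Finset.sum_le_sum fun y _ => e7 y).trans ?_
    simp
  -- logarithms
  have h2 : ∀ x y, Real.log (r x y) ≤ r x y - 1 := fun x y =>
    Real.log_le_sub_one_of_pos (hr0 x y)
  have hcard : ∀ x, ((univ.filter fun y => V₁ y = V₁ x).card : ℝ) = nf V₁ x := fun x => by
    rw [nf_eq]
  have h3 : ∑ x, (∑ y ∈ univ.filter (fun y => V₁ y = V₁ x), Real.log (r x y)) / nf V₁ x ≤ 0 := by
    have e1 : ∀ x, (∑ y ∈ univ.filter (fun y => V₁ y = V₁ x), Real.log (r x y)) / nf V₁ x ≤
        (∑ y ∈ univ.filter (fun y => V₁ y = V₁ x), r x y) / nf V₁ x - 1 := by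
      intro x
      have e2 : ∑ y ∈ univ.filter (fun y => V₁ y = V₁ x), Real.log (r x y) ≤
          (∑ y ∈ univ.filter (fun y => V₁ y = V₁ x), r x y) - nf V₁ x := by
        refine (Finset.sum_le_sum fun y _ => h2 x y).trans ?_
        rw [Finset.sum_sub_distrib, Finset.sum_const, nsmul_eq_mul, mul_one, hcard]
      calc _ ≤ ((∑ y ∈ univ.filter (fun y => V₁ y = V₁ x), r x y) - nf V₁ x) / nf V₁ x :=
            div_le_div_of_nonneg_right e2 (n1 x).le
        _ = _ := by rw [sub_div, div_self (n1 x).ne']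
    refine (Finset.sum_le_sum fun x _ => e1 x).trans ?_
    rw [Finset.sum_sub_distrib, Finset.sum_const, Finset.card_univ, nsmul_eq_mul, mul_one]
    linarith
  -- expansion
  have h4 : ∀ x y, Real.log (r x y) = Real.log (nf V₂ y) + Real.log (nf V₁ x) +
      Real.log (Q (V₂ y) (S x)) - Real.log (nf S x) - Real.log (nf P y) := by
    intro x y
    rw [hr]
    simp only
    rw [Real.log_div (mul_pos (mul_pos (n2 y) (n1 x)) (hQ0 _ _)).ne' (mul_pos (nS x) (nP y)).ne',
      Real.log_mul (mul_pos (n2 y) (n1 x)).ne' (hQ0 _ _).ne', Real.log_mul (n2 y).ne' (n1 x).ne',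
      Real.log_mul (nS x).ne' (nP y).ne']
    ring
  -- marginals
  have m1 : ∀ G : Ω → ℝ, ∑ x, (∑ _y ∈ univ.filter (fun y => V₁ y = V₁ x), G x) / nf V₁ x =
      ∑ x, G x := by
    intro G
    refine Finset.sum_congr rfl fun x _ => ?_
    rw [Finset.sum_const, nsmul_eq_mul, hcard, mul_div_assoc, mul_comm,
      div_mul_cancel₀ _ (n1 x).ne']
  have m2 : ∀ G : Ω → ℝ, ∑ x, (∑ y ∈ univ.filter (fun y => V₁ y = V₁ x), G y) / nf V₁ x =
      ∑ x, G x := by
    intro G
    simp_rw [Finset.sum_filter, Finset.sum_div]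
    rw [Finset.sum_comm]
    refine Finset.sum_congr rfl fun y _ => ?_
    have e1 : ∀ x, (if V₁ y = V₁ x then G y else 0) / (nf V₁ x : ℝ) =
        if V₁ x = V₁ y then G y / nf V₁ y else 0 := by
      intro x
      by_cases hxy : V₁ x = V₁ y
      · rw [if_pos hxy, if_pos hxy.symm, nf_congr hxy]
      · rw [if_neg hxy, if_neg (fun h => hxy h.symm), zero_div]
    rw [Finset.sum_congr rfl fun x _ => e1 x, ← Finset.sum_filter, Finset.sum_const, nsmul_eq_mul,
      hcard, mul_div_assoc', mul_comm, mul_div_assoc, div_self (n1 y).ne', mul_one]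
  have h5 : ∑ x, (∑ y ∈ univ.filter (fun y => V₁ y = V₁ x), Real.log (r x y)) / nf V₁ x =
      (∑ x, Real.log (nf V₂ x)) + (∑ x, Real.log (nf V₁ x)) +
        (∑ x, (∑ y ∈ univ.filter (fun y => V₁ y = V₁ x), Real.log (Q (V₂ y) (S x))) / nf V₁ x) -
          (∑ x, Real.log (nf S x)) - ∑ x, Real.log (nf P x) := by
    rw [← m2 fun y => Real.log (nf V₂ y), ← m1 fun x => Real.log (nf V₁ x),
      ← m1 fun x => Real.log (nf S x), ← m2 fun y => Real.log (nf P y), ← Finset.sum_add_distrib,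
      ← Finset.sum_add_distrib, ← Finset.sum_sub_distrib, ← Finset.sum_sub_distrib]
    refine Finset.sum_congr rfl fun x _ => ?_
    simp_rw [h4]
    rw [Finset.sum_sub_distrib, Finset.sum_sub_distrib, Finset.sum_add_distrib,
      Finset.sum_add_distrib]
    ring
  rw [h5] at h3
  unfold L
  rw [← add_div, ← sub_div, ← sub_div, ← add_div]
  apply div_nonpos_of_nonpos_of_nonneg _ hc.le
  linarith

end Gibbs

section Signs

variable {U : Type*} [Fintype U] [DecidableEq U]

/-- the density of a product measure on the subsets -/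
noncomputable def Qd (u v : ℝ) (w s : Finset U) : ℝ :=
  ∏ i, if i ∈ w then (if i ∈ s then u else v) else 1 / 2

lemma Qd_pos {u v : ℝ} (hu : 0 < u) (hv : 0 < v) (w s : Finset U) : 0 < Qd u v w s := by
  unfold Qd
  apply Finset.prod_pos
  intro i _
  split_ifs
  · exact hu
  · exact hv
  · norm_num

lemma sum_Qd {u v : ℝ} (huv : u + v = 1) (w : Finset U) : ∑ s, Qd u v w s = 1 := by
  have h1 := Finset.prod_add (fun i : U => if i ∈ w then u else (1 / 2 : ℝ))
    (fun i : U => if i ∈ w then v else (1 / 2 : ℝ)) univ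
  rw [Finset.powerset_univ] at h1
  have h2 : ∀ s : Finset U, Qd u v w s = (∏ i ∈ s, if i ∈ w then u else (1 / 2 : ℝ)) *
      ∏ i ∈ univ \ s, if i ∈ w then v else (1 / 2 : ℝ) := by
    intro s
    unfold Qd
    have h3 : ∀ i : U, (if i ∈ w then (if i ∈ s then u else v) else (1 / 2 : ℝ)) =
        if i ∈ s then (if i ∈ w then u else (1 / 2 : ℝ)) else (if i ∈ w then v else (1 / 2 : ℝ)) := by
      intro i
      split_ifs <;> rfl
    rw [Finset.prod_congr rfl fun i _ => h3 i, Finset.prod_ite]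
    congr 1
    · apply Finset.prod_congr _ fun _ _ => rfl
      ext i; simp
    · apply Finset.prod_congr _ fun _ _ => rfl
      ext i; simp
  rw [Finset.sum_congr rfl fun s _ => h2 s, ← h1]
  apply Finset.prod_eq_one
  intro i _
  split_ifs
  · exact huv
  · norm_num

lemma Qd_mul {a b c : Finset U} {w : Finset U} (h23 : Disjoint b c) (hw : Disjoint a w) :
    Qd (1 / 3) (2 / 3) w (a ∪ b) * Qd (1 / 3) (2 / 3) w (a ∪ c) * Qd (2 / 3) (1 / 3) w (b ∪ c) =
      (1 / 8) ^ Fintype.card U * (32 / 27) ^ w.card := by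
  have e1 : ((1 / 8 : ℝ) ^ Fintype.card U * (32 / 27) ^ w.card) =
      ∏ i : U, if i ∈ w then (4 / 27 : ℝ) else 1 / 8 := by
    have e2 : ∀ i : U, (if i ∈ w then (4 / 27 : ℝ) else 1 / 8) =
        (1 / 8) * if i ∈ w then (32 / 27 : ℝ) else 1 := by
      intro i
      split_ifs <;> norm_num
    rw [Finset.prod_congr rfl fun i _ => e2 i, Finset.prod_mul_distrib, Finset.prod_const,
      Finset.card_univ, Finset.prod_ite_mem, Finset.univ_inter, Finset.prod_const]
  rw [e1]
  unfold Qd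
  rw [← Finset.prod_mul_distrib, ← Finset.prod_mul_distrib]
  refine Finset.prod_congr rfl fun i _ => ?_
  by_cases hi : i ∈ w
  · have ha : i ∉ a := fun h => Finset.disjoint_left.1 hw h hi
    simp only [hi, if_true, Finset.mem_union, ha, false_or]
    by_cases hb : i ∈ b
    · have hc : i ∉ c := Finset.disjoint_left.1 h23 hb
      simp only [hb, hc, if_true, if_false, true_or]
      norm_num
    · by_cases hc : i ∈ c
      · simp only [hb, hc, if_true, if_false, or_true]
        norm_num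
      · simp only [hb, hc, if_false, or_false]
        norm_num
  · simp only [hi, if_false]
    norm_num

end Signs

section Main

variable {Ω U : Type*} [Fintype Ω] [Nonempty Ω] [Fintype U] [DecidableEq U]

/-- **Resampling.** Three disjoint random sets, such that the union of any two is nearly uniform and
the first two are nearly independent: then the second is small. -/
theorem resample (V₁ V₂ V₃ : Ω → Finset U) (h12 : ∀ x, Disjoint (V₁ x) (V₂ x))
    (h23 : ∀ x, Disjoint (V₂ x) (V₃ x)) :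
    Real.log (32 / 27) * ((∑ x, ((V₂ x).card : ℝ)) / Fintype.card Ω) ≤
      3 * (Fintype.card U * Real.log 2) - 3 * (L V₁ + L V₂ - L (fun x => (V₁ x, V₂ x))) +
        L (fun x => V₁ x ∪ V₂ x) + L (fun x => V₁ x ∪ V₃ x) + L (fun x => V₂ x ∪ V₃ x) := by
  classical
  have hc : (0 : ℝ) < Fintype.card Ω := by exact_mod_cast Fintype.card_pos
  have n1 : ∀ x, (0 : ℝ) < nf V₁ x := fun x => by exact_mod_cast nf_pos V₁ x
  have g1 := gibbs V₁ V₂ (fun x => V₁ x ∪ V₂ x) (Qd (1 / 3) (2 / 3))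
    (Qd_pos (by norm_num) (by norm_num)) (fun w => (sum_Qd (by norm_num) w).le)
  have g2 := gibbs V₁ V₂ (fun x => V₁ x ∪ V₃ x) (Qd (1 / 3) (2 / 3))
    (Qd_pos (by norm_num) (by norm_num)) (fun w => (sum_Qd (by norm_num) w).le)
  have g3 := gibbs V₁ V₂ (fun x => V₂ x ∪ V₃ x) (Qd (2 / 3) (1 / 3))
    (Qd_pos (by norm_num) (by norm_num)) (fun w => (sum_Qd (by norm_num) w).le)
  have h1 : ∀ x, ∀ y ∈ univ.filter (fun y => V₁ y = V₁ x),
      Real.log (Qd (1 / 3) (2 / 3) (V₂ y) (V₁ x ∪ V₂ x)) +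
        Real.log (Qd (1 / 3) (2 / 3) (V₂ y) (V₁ x ∪ V₃ x)) +
          Real.log (Qd (2 / 3) (1 / 3) (V₂ y) (V₂ x ∪ V₃ x)) =
      -(3 * (Fintype.card U * Real.log 2)) + (V₂ y).card * Real.log (32 / 27) := by
    intro x y hy
    have hxy := (Finset.mem_filter.1 hy).2
    have hw : Disjoint (V₁ x) (V₂ y) := by rw [← hxy]; exact h12 y
    rw [← Real.log_mul (Qd_pos (by norm_num) (by norm_num) _ _).ne'
      (Qd_pos (by norm_num) (by norm_num) _ _).ne',
      ← Real.log_mul (mul_pos (Qd_pos (by norm_num) (by norm_num) _ _)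
        (Qd_pos (by norm_num) (by norm_num) _ _)).ne'
      (Qd_pos (by norm_num) (by norm_num) _ _).ne', Qd_mul (h23 x) hw,
      Real.log_mul (by positivity) (by positivity), Real.log_pow, Real.log_pow]
    have e : Real.log (1 / 8) = -(3 * Real.log 2) := by
      rw [one_div, Real.log_inv, show (8 : ℝ) = 2 ^ 3 by norm_num, Real.log_pow]
      norm_num
    rw [e]
    ring
  have hcard : ∀ x, ((univ.filter fun y => V₁ y = V₁ x).card : ℝ) = nf V₁ x := fun x => by
    rw [nf_eq]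
  have h2 : (∑ x, (∑ y ∈ univ.filter (fun y => V₁ y = V₁ x),
        Real.log (Qd (1 / 3) (2 / 3) (V₂ y) (V₁ x ∪ V₂ x))) / nf V₁ x) +
      (∑ x, (∑ y ∈ univ.filter (fun y => V₁ y = V₁ x),
        Real.log (Qd (1 / 3) (2 / 3) (V₂ y) (V₁ x ∪ V₃ x))) / nf V₁ x) +
      (∑ x, (∑ y ∈ univ.filter (fun y => V₁ y = V₁ x),
        Real.log (Qd (2 / 3) (1 / 3) (V₂ y) (V₂ x ∪ V₃ x))) / nf V₁ x) =
      -(Fintype.card Ω * (3 * (Fintype.card U * Real.log 2))) +
        Real.log (32 / 27) * ∑ x, ((V₂ x).card : ℝ) := by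
    rw [← Finset.sum_add_distrib, ← Finset.sum_add_distrib]
    have e1 : ∀ x, (∑ y ∈ univ.filter (fun y => V₁ y = V₁ x),
        Real.log (Qd (1 / 3) (2 / 3) (V₂ y) (V₁ x ∪ V₂ x))) / nf V₁ x +
        (∑ y ∈ univ.filter (fun y => V₁ y = V₁ x),
        Real.log (Qd (1 / 3) (2 / 3) (V₂ y) (V₁ x ∪ V₃ x))) / nf V₁ x +
        (∑ y ∈ univ.filter (fun y => V₁ y = V₁ x),
        Real.log (Qd (2 / 3) (1 / 3) (V₂ y) (V₂ x ∪ V₃ x))) / nf V₁ x =
        -(3 * (Fintype.card U * Real.log 2)) +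
          Real.log (32 / 27) * ((∑ y ∈ univ.filter (fun y => V₁ y = V₁ x),
            ((V₂ y).card : ℝ)) / nf V₁ x) := by
      intro x
      rw [← add_div, ← add_div, ← Finset.sum_add_distrib, ← Finset.sum_add_distrib,
        Finset.sum_congr rfl (h1 x), Finset.sum_add_distrib, Finset.sum_const, nsmul_eq_mul, hcard,
        ← Finset.sum_mul, add_div, mul_div_assoc, mul_comm (nf V₁ x : ℝ),
        div_mul_cancel₀ _ (n1 x).ne']
      ring
    rw [Finset.sum_congr rfl fun x _ => e1 x, Finset.sum_add_distrib, Finset.sum_const,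
      Finset.card_univ, nsmul_eq_mul, ← Finset.mul_sum]
    have e2 : ∑ x, (∑ y ∈ univ.filter (fun y => V₁ y = V₁ x), ((V₂ y).card : ℝ)) / nf V₁ x =
        ∑ x, ((V₂ x).card : ℝ) := by
      simp_rw [Finset.sum_filter, Finset.sum_div]
      rw [Finset.sum_comm]
      refine Finset.sum_congr rfl fun y _ => ?_
      have e3 : ∀ x, (if V₁ y = V₁ x then ((V₂ y).card : ℝ) else 0) / (nf V₁ x : ℝ) =
          if V₁ x = V₁ y then ((V₂ y).card : ℝ) / nf V₁ y else 0 := by
        intro x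
        by_cases hxy : V₁ x = V₁ y
        · rw [if_pos hxy, if_pos hxy.symm, nf_congr hxy]
        · rw [if_neg hxy, if_neg (fun h => hxy h.symm), zero_div]
      rw [Finset.sum_congr rfl fun x _ => e3 x, ← Finset.sum_filter, Finset.sum_const,
        nsmul_eq_mul, hcard, mul_div_assoc', mul_comm, mul_div_assoc, div_self (n1 y).ne', mul_one]
    rw [e2]
    ring
  have h3 := add_le_add (add_le_add g1 g2) g3
  have h4 : (∑ x, (∑ y ∈ univ.filter (fun y => V₁ y = V₁ x),
        Real.log (Qd (1 / 3) (2 / 3) (V₂ y) (V₁ x ∪ V₂ x))) / nf V₁ x) / Fintype.card Ω +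
      (∑ x, (∑ y ∈ univ.filter (fun y => V₁ y = V₁ x),
        Real.log (Qd (1 / 3) (2 / 3) (V₂ y) (V₁ x ∪ V₃ x))) / nf V₁ x) / Fintype.card Ω +
      (∑ x, (∑ y ∈ univ.filter (fun y => V₁ y = V₁ x),
        Real.log (Qd (2 / 3) (1 / 3) (V₂ y) (V₂ x ∪ V₃ x))) / nf V₁ x) / Fintype.card Ω =
      -(3 * (Fintype.card U * Real.log 2)) +
        Real.log (32 / 27) * ((∑ x, ((V₂ x).card : ℝ)) / Fintype.card Ω) := by
    rw [← add_div, ← add_div, h2, add_div, neg_div, mul_div_assoc, mul_comm (Fintype.card Ω : ℝ),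
      div_mul_cancel₀ _ hc.ne', mul_div_assoc]
  linarith

end Main

end Pool.Agent.SRO
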